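import Pool.Agent.Y859.SF.Stm

/-!
# Project SF, step ES2: primes larger than `s` in binomial coefficients
-/

set_option autoImplicit false

namespace Pool.Agent.Y689.SF

open Finset Filter Pool.Agent.Y859.SF

theorem pi_upper (hp : S_PNT) : ∀ᶠ x : ℝ in atTop,
    (Nat.primeCounting ⌊x⌋₊ : ℝ) ≤ 101 / 100 * x / Real.log x := by
  have h1 := Chebyshev.integral_theta_div_log_sq_isLittleO.bound
    (show (0 : ℝ) < 1 / 200 by norm_num)
  have h2 : ∀ᶠ x : ℝ in atTop, Chebyshev.theta x / x < 201 / 200 :=
    hp.eventually (gt_mem_nhds (by norm_num))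
  filter_upwards [eventually_ge_atTop 2, h1, h2] with x hx hx2 hx3
  rw [Chebyshev.primeCounting_eq_theta_div_log_add_integral hx]
  have hx0 : 0 < x := by linarith
  have hlog : 0 < Real.log x := Real.log_pos (by linarith)
  rw [div_lt_iff₀ hx0] at hx3
  have e1 : Chebyshev.theta x / Real.log x ≤ (201 / 200 * x) / Real.log x :=
    div_le_div_of_nonneg_right hx3.le hlog.le
  rw [Real.norm_of_nonneg (show 0 ≤ x / Real.log x from div_nonneg hx0.le hlog.le)] at hx2
  have e2 := le_trans (Real.le_norm_self _) hx2
  have e3 : 101 / 100 * x / Real.log x = 201 / 200 * x / Real.log x +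
      1 / 200 * (x / Real.log x) := by
    field_simp
    ring
  rw [e3]
  exact add_le_add e1 e2

theorem nine_pow_le_choose : ∀ s y : ℕ, 9 * s ≤ y → 9 ^ s ≤ y.choose s := by
  intro s
  induction s with
  | zero => intro y _; simp
  | succ s ih =>
    intro y hy
    obtain ⟨z, rfl⟩ : ∃ z, y = z + 1 := ⟨y - 1, by omega⟩
    have h1 := ih z (by omega)
    have h2 : (z + 1) * z.choose s = (z + 1).choose (s + 1) * (s + 1) :=
      Nat.add_one_mul_choose_eq z s
    have h3 : 9 * (s + 1) * 9 ^ s ≤ (z + 1) * z.choose s := Nat.mul_le_mul hy h1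
    rw [h2] at h3
    have h4 : 9 ^ (s + 1) * (s + 1) ≤ (z + 1).choose (s + 1) * (s + 1) := by
      calc 9 ^ (s + 1) * (s + 1) = 9 * (s + 1) * 9 ^ s := by ring
        _ ≤ _ := h3
    exact Nat.le_of_mul_le_mul_right h4 (Nat.succ_pos s)

theorem blk_fact (A s : ℕ) : blk A (A + s) * A.factorial = (A + s).factorial := by
  induction s with
  | zero => simp [blk]
  | succ s ih =>
    have h1 : blk A (A + (s + 1)) = blk A (A + s) * (A + s + 1) := by
      unfold blk
      rw [← Finset.prod_Ioc_succ_top (Nat.le_add_right A s)]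
      rfl
    have h2 : (A + (s + 1)).factorial = (A + s + 1) * (A + s).factorial :=
      Nat.factorial_succ (A + s)
    rw [h1, h2, ← ih]
    ring

theorem blk_choose (A s : ℕ) : blk A (A + s) = s.factorial * (A + s).choose s := by
  have h1 := blk_fact A s
  have h2 := Nat.choose_mul_factorial_mul_factorial (Nat.le_add_left s A)
  rw [Nat.add_sub_cancel] at h2
  have h3 : blk A (A + s) * A.factorial = (s.factorial * (A + s).choose s) * A.factorial := by
    rw [h1, ← h2]
    ring
  exact Nat.eq_of_mul_eq_mul_right (Nat.factorial_pos A) h3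

/-- the primes larger than `s` that divide `choose y s` -/
def PL (s y : ℕ) : Finset ℕ := (Icc (s + 1) y).filter (fun p => p.Prime ∧ p ∣ y.choose s)

theorem choose_le (s y : ℕ) (hs : s ≤ y) (hy : 0 < y) :
    y.choose s ≤ y ^ ((Nat.primesLE s).card + (PL s y).card) := by
  calc y.choose s = ∏ p ∈ range (y + 1), p ^ ((y.choose s).factorization p) :=
        (Nat.prod_pow_factorization_choose y s hs).symm
    _ ≤ ∏ p ∈ range (y + 1), (if p ∈ Nat.primesLE s ∪ PL s y then y else 1) := by
        refine Finset.prod_le_prod' fun p hp => ?_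
        split_ifs with h
        · exact Nat.pow_factorization_choose_le hy
        · rw [Finset.mem_union, not_or] at h
          have h0 : (y.choose s).factorization p = 0 := by
            by_cases hpr : p.Prime
            · have h1 : s < p := by
                by_contra hcon
                exact h.1 (Nat.mem_primesLE.mpr ⟨not_lt.mp hcon, hpr⟩)
              refine Nat.factorization_eq_zero_of_not_dvd fun hd => h.2 ?_
              unfold PL
              rw [Finset.mem_filter, Finset.mem_Icc]
              have := Finset.mem_range.mp hp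
              exact ⟨⟨h1, by omega⟩, hpr, hd⟩
            · exact Nat.factorization_eq_zero_of_not_prime _ hpr
          rw [h0, pow_zero]
    _ = y ^ ((range (y + 1)).filter (fun p => p ∈ Nat.primesLE s ∪ PL s y)).card := by
        rw [Finset.prod_ite, Finset.prod_const, Finset.prod_const_one, mul_one]
    _ ≤ y ^ ((Nat.primesLE s).card + (PL s y).card) := by
        refine Nat.pow_le_pow_right hy (le_trans (Finset.card_le_card ?_) (Finset.card_union_le _ _))
        intro p hp
        exact (Finset.mem_filter.mp hp).2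

theorem log_three_lower : (109 : ℝ) / 100 ≤ Real.log 3 := by
  have h1 : Real.log ((2 : ℝ) ^ 19) ≤ Real.log ((3 : ℝ) ^ 12) :=
    Real.log_le_log (by norm_num) (by norm_num)
  rw [Real.log_pow, Real.log_pow] at h1
  have h2 := Real.log_two_gt_d9
  push_cast at h1
  linarith

theorem t_ES2 (hp : S_PNT) : S_ES2 := by
  have h0 := tendsto_natCast_atTop_atTop.eventually (pi_upper hp)
  obtain ⟨s₁, hs₁⟩ := eventually_atTop.mp h0
  refine ⟨1 / 20, by norm_num, max s₁ 3, ?_⟩
  intro A s hs hA1 hA2
  have hs1 : s₁ ≤ s := le_trans (le_max_left _ _) hs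
  have hs3 : 3 ≤ s := le_trans (le_max_right _ _) hs
  have hpi := hs₁ s hs1
  rw [Nat.floor_natCast, ← Nat.primesLE_card_eq_primeCounting] at hpi
  set y := A + s with hy
  have hys : y ≤ s ^ 2 := by nlinarith
  have hy0 : 0 < y := by omega
  have hsR : (3 : ℝ) ≤ s := by exact_mod_cast hs3
  have hlogs : 0 < Real.log s := Real.log_pos (by linarith)
  refine ⟨PL s y, ?_, ?_⟩
  · intro p hpP
    unfold PL at hpP
    rw [Finset.mem_filter, Finset.mem_Icc] at hpP
    obtain ⟨⟨h1, h2⟩, hpr, hd⟩ := hpP
    refine ⟨hpr, ?_⟩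
    have hc0 : y.choose s ≠ 0 := (Nat.choose_pos (by omega)).ne'
    have hf1 : (y.choose s).factorization p ≤ 1 := by
      refine Nat.factorization_choose_le_one ?_
      nlinarith
    have hf2 : 1 ≤ (y.choose s).factorization p :=
      (hpr.dvd_iff_one_le_factorization hc0).mp hd
    have hfs : (s.factorial).factorization p = 0 :=
      Nat.factorization_factorial_eq_zero_of_lt (by omega)
    rw [blk_choose, ← hy, Nat.factorization_mul (Nat.factorial_ne_zero s) hc0, Finsupp.add_apply,
      hfs, zero_add]
    have : (y.choose s).factorization p = 1 := le_antisymm hf1 hf2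
    rw [this]
    exact odd_one
  · have h1 := nine_pow_le_choose s y (by omega)
    have h2 := choose_le s y (by omega) hy0
    have h3 : ((9 : ℝ)) ^ s ≤ (y : ℝ) ^ ((Nat.primesLE s).card + (PL s y).card) := by
      exact_mod_cast le_trans h1 h2
    have h4 := Real.log_le_log (by positivity) h3
    rw [Real.log_pow, Real.log_pow] at h4
    have h5 : Real.log y ≤ 2 * Real.log s := by
      have h6 : Real.log ((y : ℝ)) ≤ Real.log ((s : ℝ) ^ 2) :=
        Real.log_le_log (by exact_mod_cast hy0) (by exact_mod_cast hys)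
      rw [Real.log_pow] at h6
      exact_mod_cast h6
    have h9 : Real.log 9 = 2 * Real.log 3 := by
      rw [show (9 : ℝ) = 3 ^ 2 by norm_num, Real.log_pow]
      push_cast
      ring
    have h3l := log_three_lower
    rw [le_div_iff₀ hlogs] at hpi
    rw [div_le_iff₀ hlogs]
    push_cast at h4
    have hnn : (0 : ℝ) ≤ ((Nat.primesLE s).card : ℝ) + ((PL s y).card : ℝ) := by positivity
    have h10 : (((Nat.primesLE s).card : ℝ) + ((PL s y).card : ℝ)) * Real.log y ≤
        (((Nat.primesLE s).card : ℝ) + ((PL s y).card : ℝ)) * (2 * Real.log s) :=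
      mul_le_mul_of_nonneg_left h5 hnn
    rw [h9] at h4
    have h11 : (s : ℝ) * (109 / 100) ≤ s * Real.log 3 :=
      mul_le_mul_of_nonneg_left h3l (by linarith)
    nlinarith

end Pool.Agent.Y689.SF
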